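import Pool.Agent.helper18.HG.Spec

set_option autoImplicit false

namespace Pool.Agent.helper18.HG

open Finset

/-- The polynomial with coefficients `x`. -/
noncomputable def AUX_poly (D E : ℕ) (x : Fin (D + 1) × Fin (E + 1) → ℤ) :
    Polynomial (Polynomial ℤ) :=
  ∑ i : Fin (D + 1), Polynomial.monomial i.val
    (∑ j : Fin (E + 1), Polynomial.monomial j.val (x (i, j)))

theorem AUX_poly_add (D E : ℕ) (x y : Fin (D + 1) × Fin (E + 1) → ℤ) :
    AUX_poly D E (x + y) = AUX_poly D E x + AUX_poly D E y := by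
  unfold AUX_poly
  rw [← Finset.sum_add_distrib]
  refine Finset.sum_congr rfl fun i _ => ?_
  rw [← map_add, ← Finset.sum_add_distrib]
  refine congrArg _ (Finset.sum_congr rfl fun j _ => ?_)
  rw [Pi.add_apply, map_add]

theorem AUX_sum_monomial {R : Type} [CommRing R] (n : ℕ) (f : Fin n → R) (m : ℕ) :
    (∑ i : Fin n, Polynomial.monomial i.val (f i)).coeff m =
      if h : m < n then f ⟨m, h⟩ else 0 := by
  rw [Polynomial.finset_sum_coeff]
  simp only [Polynomial.coeff_monomial]
  split_ifs with h
  · rw [Finset.sum_eq_single (⟨m, h⟩ : Fin n)]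
    · simp
    · intro b _ hb
      rw [if_neg]
      intro hbm
      exact hb (Fin.ext hbm)
    · intro hb
      exact absurd (Finset.mem_univ _) hb
  · refine Finset.sum_eq_zero fun i _ => ?_
    rw [if_neg]
    intro him
    exact h (him ▸ i.2)

theorem AUX_coeff (D E : ℕ) (x : Fin (D + 1) × Fin (E + 1) → ℤ) (i : Fin (D + 1))
    (j : Fin (E + 1)) : ((AUX_poly D E x).coeff i.val).coeff j.val = x (i, j) := by
  unfold AUX_poly
  rw [AUX_sum_monomial, dif_pos i.2, AUX_sum_monomial, dif_pos j.2]

theorem AUX_natDegree (D E : ℕ) (x : Fin (D + 1) × Fin (E + 1) → ℤ) :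
    (AUX_poly D E x).natDegree ≤ D := by
  refine Polynomial.natDegree_le_iff_coeff_eq_zero.2 fun N hN => ?_
  unfold AUX_poly
  rw [AUX_sum_monomial, dif_neg (by omega)]

theorem AUX_natDegree2 (D E : ℕ) (x : Fin (D + 1) × Fin (E + 1) → ℤ) (i : ℕ) :
    ((AUX_poly D E x).coeff i).natDegree ≤ E := by
  refine Polynomial.natDegree_le_iff_coeff_eq_zero.2 fun N hN => ?_
  unfold AUX_poly
  rw [AUX_sum_monomial]
  split_ifs with h
  · rw [AUX_sum_monomial, dif_neg (by omega)]
  · simp

theorem AUX : AUX_stmt := by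
  intro G D E
  set N : ℕ := (D + 1) * (E + 1) - 1 with hN
  let f : (Fin (D + 1) × Fin (E + 1) → ℤ) →+ (Fin N → ℤ) :=
    { toFun := fun x n => PowerSeries.coeff n.val (ev G (AUX_poly D E x))
      map_zero' := by
        funext n
        have h0 : AUX_poly D E 0 = 0 := by
          unfold AUX_poly
          simp
        rw [h0]
        simp [ev]
      map_add' := by
        intro x y
        funext n
        rw [AUX_poly_add]
        simp [ev, Polynomial.eval₂_add] }
  have hinj : ¬ Function.Injective f.toIntLinearMap := by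
    intro h
    have h1 := card_le_of_injective (R := ℤ) f.toIntLinearMap h
    rw [Fintype.card_prod, Fintype.card_fin, Fintype.card_fin, Fintype.card_fin] at h1
    have h2 : 0 < (D + 1) * (E + 1) := by positivity
    omega
  rw [injective_iff_map_eq_zero] at hinj
  push Not at hinj
  obtain ⟨x, hx0, hx⟩ := hinj
  refine ⟨AUX_poly D E x, ?_, AUX_natDegree D E x, AUX_natDegree2 D E x, ?_⟩
  · intro h
    apply hx
    funext p
    have h1 := AUX_coeff D E x p.1 p.2
    rw [h] at h1
    simpa using h1.symm
  · intro n hn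
    exact congrFun hx0 (⟨n, hn⟩ : Fin N)

end Pool.Agent.helper18.HG
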